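import Mathlib
import Pool.Agent.Lib.MP_c95b3b_ag_R.Final
import Pool.Agent.Lib.MP_c95b3b_ag_R.Trans

set_option autoImplicit false

/-! MP_c95b3b_ag, full conjecture: reduction from the complex numbers to the algebraic numbers
(from the theorem `QbarImage`). -/

namespace Pool.Agent.CITF

open MvPolynomial Pool.Agent.CITR

/-- The conjecture for the varieties `V(Q)` over the algebraic numbers with dense algebraic
unlikely points, of dimension and codimension at least `1` and `2`, with finite stabiliser. -/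
def QbarConj : Prop :=
  ∀ (m : ℕ) (Q : Ideal (MvPolynomial (Fin m) ℂ)), Q.IsPrime →
    (∏ l : Fin m, (X l : MvPolynomial (Fin m) ℂ)) ∉ Q →
    Q = Ideal.span {g | g ∈ Q ∧ ∀ s, IsAlgebraic ℚ (coeff s g)} →
    (∀ f, (∀ y, Unlikely m Q y → (∀ l, IsAlgebraic ℚ (y l)) → eval y f = 0) →
        ∀ y, OnTorus m Q y → eval y f = 0) →
    1 ≤ ringKrullDim (MvPolynomial (Fin m) ℂ ⧸ Q) →
    ringKrullDim (MvPolynomial (Fin m) ℂ ⧸ Q) + 2 ≤ (m : WithBot ℕ∞) →
    (∀ v : Fin m → ℤ, v ≠ 0 → ∃ y, OnTorus m Q y ∧ ∃ t : ℂ, t ≠ 0 ∧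
        ¬ OnTorus m Q (fun l => t ^ v l * y l)) →
    InSubgroup m Q

/-- The statement of the conjecture over the complex numbers (the body of `S00439`). -/
def FullConj : Prop :=
  ∀ (n : ℕ) (P : Ideal (MvPolynomial (Fin n) ℂ)), P.IsPrime →
      (∏ i : Fin n, (MvPolynomial.X i : MvPolynomial (Fin n) ℂ)) ∉ P →
      (∀ f : MvPolynomial (Fin n) ℂ,
        (∀ x : Fin n → ℂ, (∀ i, x i ≠ 0) → (∀ g ∈ P, MvPolynomial.eval x g = 0) →
          (∃ Λ : Submodule ℤ (Fin n → ℤ),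
            ringKrullDim (MvPolynomial (Fin n) ℂ ⧸ P)
                + ((n - Module.finrank ℤ Λ : ℕ) : WithBot ℕ∞) + 1 ≤ (n : WithBot ℕ∞) ∧
            ∀ a ∈ Λ, ∏ i : Fin n, x i ^ a i = 1) →
          MvPolynomial.eval x f = 0) →
        ∀ x : Fin n → ℂ, (∀ i, x i ≠ 0) → (∀ g ∈ P, MvPolynomial.eval x g = 0) →
          MvPolynomial.eval x f = 0) →
      ∃ a : Fin n → ℤ, a ≠ 0 ∧
        ∀ x : Fin n → ℂ, (∀ i, x i ≠ 0) → (∀ g ∈ P, MvPolynomial.eval x g = 0) →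
          ∏ i : Fin n, x i ^ a i = 1

theorem full_of_qbar (H : QbarConj) : FullConj := by
  intro n P hP hX hU
  by_contra hne
  have hne' : ¬ InSubgroup n P := by
    rintro ⟨a, ha, h⟩
    exact hne ⟨a, ha, fun x hx hg => h x ⟨hx, hg⟩⟩
  have hU' : ∀ f : MvPolynomial (Fin n) ℂ, (∀ x, Unlikely n P x → eval x f = 0) →
      ∀ x, OnTorus n P x → eval x f = 0 := by
    intro f hf x hx
    exact hU f (fun y hy hg hΛ => hf y ⟨⟨hy, hg⟩, hΛ⟩) x hx.1 hx.2
  obtain ⟨m, γ, Q, ⟨-, hQ, hXQ, -, hQa, hUQ, hnQ, h1, h2⟩, hst⟩ :=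
    result_stab n P hP hX hU' hne'
  exact hnQ (H m Q hQ hXQ hQa hUQ h1 h2 hst)

end Pool.Agent.CITF
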